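import Mathlib
import Pool.Agent.WFC.MA2

set_option autoImplicit false

/-!
# Finite conservative quotients of universal models

Let `T` be a theory of existential rules, `J` a finite instance and `Q` a finite list of conjunctive queries which are
rewritable with respect to `T`. Then `T` and `J` have a universal model with a FINITE homomorphic image `H` such that
`T, H` and `T, J` entail the same queries of `Q`; the homomorphism is injective on `J` and does not identify other
elements with elements of `J`.
-/

namespace Pool.Agent.Results.MP_46e064_lc.FiniteQuotient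

open Pool.Agent.H56 Pool.Agent.WFC

variable {k : ℕ} {ar : Fin k → ℕ}

/-- The instance `I` with the homomorphism `f` from `J` is a universal model of `T` and `J`: it is a model, and it
has a homomorphism over `J` to every model of `T` which `J` maps to. -/
def IsUniversalModel (T : List (Rule ar)) {D M : Type} (J : Inst ar D) (I : Inst ar M) (f : D → M) : Prop :=
  IsModel T I ∧ IsHom J I f ∧
    ∀ (N : Type) (I' : Inst ar N) (f' : D → N), IsModel T I' → IsHom J I' f' →
      ∃ g : M → N, IsHom I I' g ∧ ∀ d, g (f d) = f' d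

/-- The conclusion: a universal model `I` with a finite homomorphic image `H` which entails the same queries. -/
def HasFiniteQuotient (T : List (Rule ar)) (Q : List (CQ ar)) {D : Type} (J : Inst ar D) : Prop :=
  ∃ (M : Type) (I : Inst ar M) (f : D → M), IsUniversalModel T J I f ∧
    ∃ (H : Type) (IH : Inst ar H) (g : M → H), Finite H ∧ IsHom I IH g ∧
      (∀ q ∈ Q, Entails T IH q ↔ Entails T J q) ∧ Function.Injective (fun d => g (f d)) ∧
      ∀ (e : M) (d : D), g e = g (f d) → e = f d

/-- The case of a nonempty database. -/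
theorem nonempty_case (T : List (Rule ar)) (Q : List (CQ ar)) (hQ : ∀ q ∈ Q, Rewritable T q) (D : Type) [Finite D]
    [Nonempty D] (J : Inst ar D) : HasFiniteQuotient T Q J := by
  obtain ⟨H, hH, IH, g, hg, hent, hinj⟩ := many_queries T Q hQ D J
  refine ⟨Leg (T := T) J, chaseInst J, fun d => ⟨.base d, base_leg J d⟩,
    ⟨chase_model J, chase_hom J, ?_⟩, H, IH, g, hH, hg, hent, ?_, hinj⟩
  · intro N I' f' hI' hf'
    obtain ⟨g, hg1, hg2⟩ := exists_homOn_leg J hI' f' hf'
    exact ⟨fun e => g e.1, isHom_of_homOn J hI' hg2, hg1⟩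
  · intro d d' h
    have := hinj ⟨.base d, base_leg J d⟩ d' h
    simpa using this

/-- **Main theorem.** Let `J` be a finite instance and let all queries of the finite list `Q` be rewritable with
respect to `T`. Then `T` and `J` have a universal model `I` and a homomorphism `g` from `I` to a FINITE instance `H`
such that for all `q` in `Q`: `T, H ⊨ q` iff `T, J ⊨ q`. Moreover `g` is injective on `J` and identifies no other
element of `I` with an element of `J`. -/
theorem result (T : List (Rule ar)) (Q : List (CQ ar)) (hQ : ∀ q ∈ Q, Rewritable T q) (D : Type) [Finite D]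
    (J : Inst ar D) : HasFiniteQuotient T Q J := by
  classical
  rcases isEmpty_or_nonempty D with hD | hD
  swap
  · exact nonempty_case T Q hQ D J
  by_cases hJ₀ : ∃ (N₁ : Type) (I₁ : Inst ar N₁), IsEmpty N₁ ∧ IsModel T I₁ ∧ ∃ f : D → N₁, IsHom J I₁ f
  · -- there is a model with empty domain
    obtain ⟨N₁, I₁, hN₁, hI₁, f₁, hf₁⟩ := hJ₀
    let I : Inst ar Empty := fun i t => ∀ (N : Type) (I' : Inst ar N) (g : Empty → N), IsModel T I' →
      (∃ f : D → N, IsHom J I' f) → I' i (g ∘ t)
    have hmodel : IsModel T I := by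
      intro r hr v hbody
      have hv : ∀ x : Fin r.1, False := fun x => (v x).elim
      let v₁ : Fin r.1 → N₁ := fun x => (hv x).elim
      have hb₁ : ∀ a ∈ r.2.1, I₁ a.1 (v₁ ∘ a.2) := by
        intro a ha
        have h1 := hbody a ha N₁ I₁ (fun e => e.elim) hI₁ ⟨f₁, hf₁⟩
        have h2 : v₁ ∘ a.2 = (fun e : Empty => (e.elim : N₁)) ∘ (v ∘ a.2) := funext fun p => (hv (a.2 p)).elim
        rw [h2]
        exact h1
      obtain ⟨w₁, -, -, -⟩ := hI₁ r hr v₁ hb₁
      have hw₁ : ∀ j : Fin (ar r.2.2.1), False := fun j => hN₁.elim (w₁ j)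
      refine ⟨fun j => (hw₁ j).elim, fun j => (hw₁ j).elim, fun j => (hw₁ j).elim, ?_⟩
      intro N I' g hI' hf
      obtain ⟨w, -, -, hw⟩ := hI' r hr (g ∘ v) (fun a ha => hbody a ha N I' g hI' hf)
      have h2 : (g ∘ fun j : Fin (ar r.2.2.1) => ((hw₁ j).elim : Empty)) = w := funext fun j => (hw₁ j).elim
      rw [h2]
      exact hw
    have hIJ : ∀ (N : Type) (I' : Inst ar N), IsModel T I' → ∀ f' : D → N, IsHom J I' f' →
        ∀ g : Empty → N, IsHom I I' g := fun N I' hI' f' hf' g i t ht => ht N I' g hI' ⟨f', hf'⟩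
    have hJI : IsHom J I (fun d => (hD.elim d : Empty)) := by
      intro i t ht N I' g hI' hf
      obtain ⟨f, hf⟩ := hf
      have h1 := hf i t ht
      have h2 : (g ∘ ((fun d => (hD.elim d : Empty)) ∘ t)) = f ∘ t := funext fun p => hD.elim (t p)
      rw [h2]
      exact h1
    refine ⟨Empty, I, fun d => (hD.elim d), ⟨hmodel, hJI, ?_⟩, Empty, I, fun e => e, inferInstance,
      fun i t ht => ht, ?_, fun d => hD.elim d, fun e => e.elim⟩
    · intro N I' f' hI' hf'
      exact ⟨fun e => e.elim, hIJ N I' hI' f' hf' _, fun d => hD.elim d⟩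
    · intro q _
      constructor
      · intro hent N I' hI' ⟨f, hf⟩
        exact hent N I' hI' ⟨fun e => e.elim, hIJ N I' hI' f hf _⟩
      · intro hent N I' hI' ⟨f, hf⟩
        refine hent N I' hI' ⟨fun d => hD.elim d, ?_⟩
        intro i t ht
        have h1 := hf i _ (hJI i t ht)
        have h2 : (fun d => (hD.elim d : N)) ∘ t = f ∘ ((fun d => (hD.elim d : Empty)) ∘ t) :=
          funext fun p => hD.elim (t p)
        rw [h2]
        exact h1
  · -- all models are nonempty: add an isolated element to the database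
    let J' : Inst ar (Option D) := fun i t => ∃ t₀ : Fin (ar i) → D, J i t₀ ∧ t = fun p => some (t₀ p)
    have hext : ∀ (N : Type) (I' : Inst ar N) (f' : D → N), IsModel T I' → IsHom J I' f' →
        ∃ f'' : Option D → N, IsHom J' I' f'' := by
      intro N I' f' hI' hf'
      have hN : Nonempty N := by
        by_contra hne
        exact hJ₀ ⟨N, I', not_nonempty_iff.mp hne, hI', f', hf'⟩
      obtain ⟨n₀⟩ := hN
      refine ⟨fun o => o.elim n₀ f', ?_⟩
      rintro i t ⟨t₀, ht₀, rfl⟩
      exact hf' i t₀ ht₀
    have hJJ' : ∀ q, Entails T J' q ↔ Entails T J q := by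
      intro q
      constructor
      · rintro hent N I' hI' ⟨f', hf'⟩
        exact hent N I' hI' (hext N I' f' hI' hf')
      · rintro hent N I' hI' ⟨f', hf'⟩
        exact hent N I' hI' ⟨fun d => f' (some d), fun i t ht => hf' i _ ⟨t, ht, rfl⟩⟩
    obtain ⟨M, I, f, ⟨hI, hf, huniv⟩, H, IH, g, hH, hg, hent, -, -⟩ := nonempty_case T Q hQ (Option D) J'
    refine ⟨M, I, fun d => f (some d), ⟨hI, ?_, ?_⟩, H, IH, g, hH, hg, fun q hq => (hent q hq).trans (hJJ' q),
      fun d => hD.elim d, fun e d => hD.elim d⟩
    · intro i t ht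
      exact hf i _ ⟨t, ht, rfl⟩
    · intro N I' f' hI' hf'
      obtain ⟨f'', hf''⟩ := hext N I' f' hI' hf'
      obtain ⟨g, hg, -⟩ := huniv N I' f'' hI' hf''
      exact ⟨g, hg, fun d => hD.elim d⟩

end Pool.Agent.Results.MP_46e064_lc.FiniteQuotient
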